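import Pool.Agent.Helper50.Gap.Max

/-!
# Transfer to quotients of the generated subgroup
-/

namespace Pool.Agent.Helper50.Gap

open Pointwise Filter Topology

theorem main' {Γ : Type*} [Group Γ] [DecidableEq Γ] (S : Finset Γ) (hne : S.Nonempty)
    (G : Subgroup Γ) (hG : G = Subgroup.closure (S : Set Γ))
    {Q : Type*} [Group Q] (f : G →* Q) (hf : Function.Surjective f)
    (N : Subgroup Q) (hN : N.Normal) (c : ℕ) (hc : (⊤ : Subgroup Q).lowerCentralSeries c ≤ N)
    (hLN : LN N) (hfg : ¬ N.FG) :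
    ∃ ρ : ℝ, Tendsto (fun n : ℕ => Real.log ((S ^ n).card : ℝ) / n) atTop (𝓝 ρ) ∧
      Real.log 2 / 3 ^ c ≤ ρ := by
  classical
  obtain ⟨ρ, hρ⟩ := Pool.Agent.Helper2.Gap.exists_rate S hne
  refine ⟨ρ, hρ, ?_⟩
  have hmem : ∀ s ∈ S, s ∈ G := fun s hs => by
    rw [hG]; exact Subgroup.subset_closure hs
  let S' : Finset G := S.attach.image (fun s => ⟨s.1, hmem s.1 s.2⟩)
  have hmap : S'.image (G.subtype) = S := by
    ext x
    simp only [S', Finset.mem_image, Finset.mem_attach, true_and, Subtype.exists]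
    constructor
    · rintro ⟨a, _, ⟨b, hb, hab⟩, rfl⟩
      have hba : b = a := congrArg Subtype.val hab
      subst hba
      exact hb
    · intro hx
      exact ⟨x, hmem x hx, ⟨x, hx, rfl⟩, rfl⟩
  have hcard : ∀ n, (S' ^ n).card = (S ^ n).card := by
    intro n
    rw [← hmap, ← Finset.image_pow, Finset.card_image_of_injective _ G.subtype_injective]
  have htop : Subgroup.closure (S' : Set G) = ⊤ := by
    apply Subgroup.map_injective G.subtype_injective
    rw [MonoidHom.map_closure, ← Finset.coe_image, hmap, ← MonoidHom.range_eq_map,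
      Subgroup.range_subtype, hG]
  have hne' : S'.Nonempty := by
    obtain ⟨s, hs⟩ := hne
    exact ⟨⟨s, hmem s hs⟩, Finset.mem_image.2 ⟨⟨s, hs⟩, Finset.mem_attach _ _, rfl⟩⟩
  -- the image in the quotient
  have hneT : (S'.image f).Nonempty := hne'.image f
  have htopT : Subgroup.closure ((S'.image f : Finset Q) : Set Q) = ⊤ := by
    rw [Finset.coe_image, ← MonoidHom.map_closure, htop, ← MonoidHom.range_eq_map,
      MonoidHom.range_eq_top.2 hf]
  obtain ⟨σ, hσ⟩ := Pool.Agent.Helper2.Gap.exists_rate (S'.image f) hneT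
  have hle : σ ≤ ρ := by
    refine le_of_tendsto_of_tendsto' hσ hρ ?_
    intro n
    apply div_le_div_of_nonneg_right _ (Nat.cast_nonneg _)
    apply Real.log_le_log
    · exact_mod_cast (hneT.pow (n := n)).card_pos
    · rw [← hcard, ← Finset.image_pow]
      exact_mod_cast Finset.card_image_le
  by_contra hlt
  push Not at hlt
  exact hfg (main_top htopT hσ (hle.trans_lt hlt) hN hLN hc)

theorem main {Γ : Type*} [Group Γ] [DecidableEq Γ] (S : Finset Γ) (hne : S.Nonempty)
    {Q : Type*} [Group Q] (f : Subgroup.closure (S : Set Γ) →* Q) (hf : Function.Surjective f)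
    (N : Subgroup Q) (hN : N.Normal) (c : ℕ) (hc : (⊤ : Subgroup Q).lowerCentralSeries c ≤ N)
    (hLN : LN N) (hfg : ¬ N.FG) :
    ∃ ρ : ℝ, Tendsto (fun n : ℕ => Real.log ((S ^ n).card : ℝ) / n) atTop (𝓝 ρ) ∧
      Real.log 2 / 3 ^ c ≤ ρ :=
  main' S hne _ rfl f hf N hN c hc hLN hfg

end Pool.Agent.Helper50.Gap
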