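import Pool.Agent.Helper2.Gap.Growth

/-!
# Finitely generated invariant subgroups
-/

namespace Pool.Agent.Helper50.Gap

open Subgroup Pool.Agent.Helper2.Gap

variable {G : Type*} [Group G]

/-- Every subgroup of a finitely generated subgroup of `N` is finitely generated. -/
def LN (N : Subgroup G) : Prop := ∀ H K : Subgroup G, H ≤ N → H.FG → K ≤ H → K.FG

/-- `H` is a finitely generated subgroup of `N` normalised by `x`. -/
structure Inv (N : Subgroup G) (x : G) (H : Subgroup G) : Prop where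
  fg : H.FG
  le : H ≤ N
  nrm : x ∈ normalizer (H : Set G)

theorem Inv.sup {N : Subgroup G} {x : G} {H K : Subgroup G} (h : Inv N x H) (k : Inv N x K) :
    Inv N x (H ⊔ K) where
  fg := h.fg.sup k.fg
  le := sup_le h.le k.le
  nrm := normalizer_inf_normalizer_le_normalizer_sup H K ⟨h.nrm, k.nrm⟩

theorem Inv.bot (N : Subgroup G) (x : G) : Inv N x ⊥ where
  fg := Subgroup.FG.bot
  le := bot_le
  nrm := by
    rw [mem_normalizer_iff]
    intro h
    simp

/-- The union of all finitely generated subgroups of `N` normalised by `x`. -/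
def NN (N : Subgroup G) (x : G) : Subgroup G where
  carrier := {a | ∃ H, Inv N x H ∧ a ∈ H}
  one_mem' := ⟨⊥, Inv.bot N x, Subgroup.one_mem _⟩
  mul_mem' := by
    rintro a b ⟨H, hH, ha⟩ ⟨K, hK, hb⟩
    exact ⟨H ⊔ K, hH.sup hK, Subgroup.mul_mem _ (le_sup_left (a := H) ha)
      (le_sup_right (b := K) hb)⟩
  inv_mem' := by
    rintro a ⟨H, hH, ha⟩
    exact ⟨H, hH, Subgroup.inv_mem _ ha⟩

theorem mem_NN {N : Subgroup G} {x a : G} : a ∈ NN N x ↔ ∃ H, Inv N x H ∧ a ∈ H := Iff.rfl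

theorem NN_le (N : Subgroup G) (x : G) : NN N x ≤ N := by
  rintro a ⟨H, hH, ha⟩
  exact hH.le ha

theorem Inv.le_NN {N : Subgroup G} {x : G} {H : Subgroup G} (h : Inv N x H) : H ≤ NN N x :=
  fun _ ha => ⟨H, h, ha⟩

theorem exists_inv_of_finset {N : Subgroup G} {x : G} (T : Finset G)
    (hT : ∀ t ∈ T, t ∈ NN N x) : ∃ M, Inv N x M ∧ ∀ t ∈ T, t ∈ M := by
  classical
  induction T using Finset.induction_on with
  | empty => exact ⟨⊥, Inv.bot N x, by simp⟩
  | insert a T _ ih =>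
    obtain ⟨M, hM, hTM⟩ := ih (fun t ht => hT t (Finset.mem_insert_of_mem ht))
    obtain ⟨H, hH, ha⟩ := hT a (Finset.mem_insert_self _ _)
    refine ⟨H ⊔ M, hH.sup hM, ?_⟩
    intro t ht
    rcases Finset.mem_insert.1 ht with rfl | ht
    · exact le_sup_left (a := H) ha
    · exact le_sup_right (b := M) (hTM t ht)

theorem exists_inv_of_fg {N : Subgroup G} {x : G} {K : Subgroup G} (hK : K.FG)
    (hle : K ≤ NN N x) : ∃ M, Inv N x M ∧ K ≤ M := by
  obtain ⟨T, rfl⟩ := hK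
  obtain ⟨M, hM, hTM⟩ := exists_inv_of_finset (N := N) (x := x) T
    (fun t ht => hle (subset_closure ht))
  exact ⟨M, hM, (closure_le _).2 hTM⟩

theorem NN_le_mul {N : Subgroup G} {x a : G} (ha : a ∈ NN N x) : NN N x ≤ NN N (a * x) := by
  obtain ⟨H, hH, haH⟩ := ha
  rintro b ⟨K, hK, hb⟩
  refine ⟨H ⊔ K, ⟨(hH.sup hK).fg, (hH.sup hK).le, ?_⟩, le_sup_right (b := K) hb⟩
  exact Subgroup.mul_mem _ (le_normalizer (le_sup_left (a := H) haH)) (hH.sup hK).nrm

theorem NN_mul {N : Subgroup G} {x a : G} (ha : a ∈ NN N x) : NN N (a * x) = NN N x := by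
  apply le_antisymm _ (NN_le_mul ha)
  obtain ⟨H, hH, haH⟩ := ha
  have h1 : a⁻¹ ∈ NN N (a * x) :=
    ⟨H, ⟨hH.fg, hH.le, Subgroup.mul_mem _ (le_normalizer haH) hH.nrm⟩, Subgroup.inv_mem _ haH⟩
  have h2 := NN_le_mul h1
  rwa [inv_mul_cancel_left] at h2

theorem mem_NN_conj {N : Subgroup G} (hN : N.Normal) {x a : G} (g : G) (ha : a ∈ NN N x) :
    g * a * g⁻¹ ∈ NN N (g * x * g⁻¹) := by
  obtain ⟨H, hH, haH⟩ := ha
  refine ⟨H.map (MulAut.conj g).toMonoidHom, ⟨?_, ?_, ?_⟩, ⟨a, haH, rfl⟩⟩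
  · obtain ⟨T, rfl⟩ := hH.fg
    classical
    refine ⟨T.image (MulAut.conj g).toMonoidHom, ?_⟩
    rw [Finset.coe_image, ← MonoidHom.map_closure]
  · rintro _ ⟨h, hh, rfl⟩
    exact hN.conj_mem h (hH.le hh) g
  · rw [mem_normalizer_iff_map_conj_eq]
    have h1 := mem_normalizer_iff_map_conj_eq.1 hH.nrm
    conv_rhs => rw [← h1]
    rw [map_map, map_map]
    congr 1
    ext b
    simp [mul_assoc]

theorem mem_NN_conj_iff {N : Subgroup G} (hN : N.Normal) {x a : G} (g : G) :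
    g * a * g⁻¹ ∈ NN N (g * x * g⁻¹) ↔ a ∈ NN N x := by
  constructor
  · intro h
    have := mem_NN_conj hN g⁻¹ h
    have e1 : g⁻¹ * (g * a * g⁻¹) * g⁻¹⁻¹ = a := by group
    have e2 : g⁻¹ * (g * x * g⁻¹) * g⁻¹⁻¹ = x := by group
    rwa [e1, e2] at this
  · exact mem_NN_conj hN g

theorem nrm_of_eq {N : Subgroup G} (hN : N.Normal) {x g : G}
    (h : NN N (g * x * g⁻¹) = NN N x) : g ∈ normalizer (NN N x : Set G) := by
  rw [mem_normalizer_iff]
  intro a
  rw [← mem_NN_conj_iff hN g, h]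

theorem self_nrm {N : Subgroup G} (hN : N.Normal) (x : G) : x ∈ normalizer (NN N x : Set G) := by
  apply nrm_of_eq hN
  rw [mul_inv_cancel_right]

/-- If `g x g⁻¹ = a x` with `a ∈ NN N x` then `g` normalises `NN N x`. -/
theorem nrm_of_mem {N : Subgroup G} (hN : N.Normal) {x g a : G} (ha : a ∈ NN N x)
    (h : g * x * g⁻¹ = a * x) : g ∈ normalizer (NN N x : Set G) := by
  apply nrm_of_eq hN
  rw [h, NN_mul ha]

theorem nrm_of_le {L : Subgroup G} {u : G} (h1 : ∀ h ∈ L, u * h * u⁻¹ ∈ L)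
    (h2 : ∀ h ∈ L, u⁻¹ * h * u ∈ L) : u ∈ normalizer (L : Set G) := by
  rw [mem_normalizer_iff]
  intro h
  refine ⟨h1 h, fun hh => ?_⟩
  have := h2 _ hh
  have e : u⁻¹ * (u * h * u⁻¹) * u = h := by group
  rwa [e] at this

theorem nrm_conj {L : Subgroup G} {u h : G} (hu : u ∈ normalizer (L : Set G)) (hh : h ∈ L) :
    u * h * u⁻¹ ∈ L := (mem_normalizer_iff.1 hu h).1 hh

theorem nrm_conj' {L : Subgroup G} {u h : G} (hu : u ∈ normalizer (L : Set G)) (hh : h ∈ L) :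
    u⁻¹ * h * u ∈ L := by
  have := nrm_conj (Subgroup.inv_mem _ hu) hh
  rwa [inv_inv] at this

/-- Simultaneous invariance. -/
theorem exists_inv_both {N : Subgroup G} (hLN : LN N) {x y : G} {K : Subgroup G}
    (hK : Inv N x K) (hKy : K ≤ NN N y) (hc : x * y * x⁻¹ * y⁻¹ ∈ K) :
    ∃ L, Inv N x L ∧ Inv N y L ∧ K ≤ L := by
  obtain ⟨M, hM, hKM⟩ := exists_inv_of_fg hK.fg hKy
  set L : Subgroup G := ⨆ i : ℤ, K.map (MulAut.conj (y ^ i)).toMonoidHom with hL
  have hmem : ∀ (i : ℤ) (k : G), k ∈ K → y ^ i * k * (y ^ i)⁻¹ ∈ L := by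
    intro i k hk
    exact mem_iSup_of_mem i ⟨k, hk, rfl⟩
  have hind : ∀ (P : G → Prop), (∀ (i : ℤ) (k : G), k ∈ K → P (y ^ i * k * (y ^ i)⁻¹)) →
      P 1 → (∀ a b, P a → P b → P (a * b)) → ∀ h ∈ L, P h := by
    intro P h1 h2 h3 h hh
    refine Subgroup.iSup_induction _ (C := P) hh ?_ h2 h3
    rintro i _ ⟨k, hk, rfl⟩
    exact h1 i k hk
  have hyM : ∀ i : ℤ, y ^ i ∈ normalizer (M : Set G) := fun i => Subgroup.zpow_mem _ hM.nrm i
  have hLM : L ≤ M := by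
    apply iSup_le
    rintro i _ ⟨k, hk, rfl⟩
    exact nrm_conj (hyM i) (hKM hk)
  have hKL : K ≤ L := by
    intro k hk
    have := hmem 0 k hk
    simpa using this
  have hLfg : L.FG := hLN M L hM.le hM.fg hLM
  have hLy : y ∈ normalizer (L : Set G) := by
    apply nrm_of_le
    · apply hind
      · intro i k hk
        have := hmem (i + 1) k hk
        have e : y * (y ^ i * k * (y ^ i)⁻¹) * y⁻¹ = y ^ (i + 1) * k * (y ^ (i + 1))⁻¹ := by
          have : y ^ (i + 1) = y * y ^ i := by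
            rw [add_comm, zpow_add, zpow_one]
          rw [this]; group
        rw [e]; exact this
      · simp
      · intro a b ha hb
        have e : y * (a * b) * y⁻¹ = (y * a * y⁻¹) * (y * b * y⁻¹) := by group
        rw [e]; exact Subgroup.mul_mem _ ha hb
    · apply hind
      · intro i k hk
        have := hmem (i - 1) k hk
        have e : y⁻¹ * (y ^ i * k * (y ^ i)⁻¹) * y = y ^ (i - 1) * k * (y ^ (i - 1))⁻¹ := by
          have : y ^ (i - 1) = y⁻¹ * y ^ i := by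
            rw [sub_eq_neg_add, zpow_add, zpow_neg_one]
          rw [this]; group
        rw [e]; exact this
      · simp
      · intro a b ha hb
        have e : y⁻¹ * (a * b) * y = (y⁻¹ * a * y) * (y⁻¹ * b * y) := by group
        rw [e]; exact Subgroup.mul_mem _ ha hb
  -- the sublemma
  have key : ∀ u : G, u ∈ normalizer (K : Set G) → u * y * u⁻¹ * y⁻¹ ∈ K →
      ∀ h ∈ L, u * h * u⁻¹ ∈ L := by
    intro u hu hd
    have hci : ∀ i : ℤ, u * y ^ i * u⁻¹ * (y ^ i)⁻¹ ∈ L := by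
      intro i
      induction i using Int.induction_on with
      | zero => simp
      | succ n ih =>
        have e : u * y ^ ((n : ℤ) + 1) * u⁻¹ * (y ^ ((n : ℤ) + 1))⁻¹ =
            (u * y ^ (n : ℤ) * u⁻¹ * (y ^ (n : ℤ))⁻¹) *
              (y ^ (n : ℤ) * (u * y * u⁻¹ * y⁻¹) * (y ^ (n : ℤ))⁻¹) := by
          rw [zpow_add_one]; group
        rw [e]
        exact Subgroup.mul_mem _ ih (hmem _ _ hd)
      | pred n ih =>
        have e : u * y ^ (-(n : ℤ) - 1) * u⁻¹ * (y ^ (-(n : ℤ) - 1))⁻¹ =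
            (u * y ^ (-(n : ℤ)) * u⁻¹ * (y ^ (-(n : ℤ)))⁻¹) *
              (y ^ (-(n : ℤ) - 1) * (u * y * u⁻¹ * y⁻¹)⁻¹ * (y ^ (-(n : ℤ) - 1))⁻¹) := by
          have h1 : y ^ (-(n : ℤ)) = y ^ (-(n : ℤ) - 1) * y := by
            rw [← zpow_add_one, sub_add_cancel]
          rw [h1]; group
        rw [e]
        exact Subgroup.mul_mem _ ih (hmem _ _ (Subgroup.inv_mem _ hd))
    apply hind
    · intro i k hk
      have e : u * (y ^ i * k * (y ^ i)⁻¹) * u⁻¹ =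
          (u * y ^ i * u⁻¹ * (y ^ i)⁻¹) * (y ^ i * (u * k * u⁻¹) * (y ^ i)⁻¹) *
            (u * y ^ i * u⁻¹ * (y ^ i)⁻¹)⁻¹ := by group
      rw [e]
      exact Subgroup.mul_mem _ (Subgroup.mul_mem _ (hci i) (hmem _ _ (nrm_conj hu hk)))
        (Subgroup.inv_mem _ (hci i))
    · simp
    · intro a b ha hb
      have e : u * (a * b) * u⁻¹ = (u * a * u⁻¹) * (u * b * u⁻¹) := by group
      rw [e]; exact Subgroup.mul_mem _ ha hb
  have hx' : x⁻¹ * y * x⁻¹⁻¹ * y⁻¹ ∈ K := by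
    have h1 := nrm_conj' hK.nrm (Subgroup.inv_mem _ hc)
    have e : x⁻¹ * (x * y * x⁻¹ * y⁻¹)⁻¹ * x = x⁻¹ * y * x⁻¹⁻¹ * y⁻¹ := by group
    rwa [e] at h1
  refine ⟨L, ⟨hLfg, hLM.trans hM.le, ?_⟩, ⟨hLfg, hLM.trans hM.le, hLy⟩, hKL⟩
  apply nrm_of_le
  · exact key x hK.nrm hc
  · intro h hh
    have := key x⁻¹ (Subgroup.inv_mem _ hK.nrm) hx' h hh
    rwa [inv_inv] at this

end Pool.Agent.Helper50.Gap
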