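import Pool.Agent.Helper50.Gap.Step

/-!
# The growth gap modulo a locally Noetherian subgroup with nilpotent quotient
-/

namespace Pool.Agent.Helper50.Gap

open Subgroup Pool.Agent.Helper2.Gap Pointwise Filter Topology

variable {G : Type*} [Group G]

theorem exists_max {N : Subgroup G} (hN : N.Normal) (hLN : LN N) :
    ∃ M : Subgroup G, N ≤ M ∧ M.Normal ∧ LN M ∧
      ∀ M' : Subgroup G, M'.Normal → LN M' → M ≤ M' → M' ≤ M := by
  obtain ⟨M, hNM, hM⟩ := zorn_le_nonempty₀ {M : Subgroup G | M.Normal ∧ LN M} (by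
    intro C hC hch N₀ hN₀
    refine ⟨sSup C, ⟨?_, ?_⟩, fun K hK => le_sSup hK⟩
    · refine ⟨?_⟩
      intro a ha g
      rw [mem_sSup_of_directedOn ⟨N₀, hN₀⟩ hch.directedOn] at ha ⊢
      obtain ⟨K, hK, haK⟩ := ha
      exact ⟨K, hK, (hC hK).1.conj_mem a haK g⟩
    · intro H K hH hHfg hKH
      obtain ⟨T, hT⟩ := hHfg
      have hfin : ∀ T : Finset G, (∀ t ∈ T, t ∈ sSup C) → ∃ P ∈ C, ∀ t ∈ T, t ∈ P := by
        classical
        intro T
        induction T using Finset.induction_on with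
        | empty => exact fun _ => ⟨N₀, hN₀, by simp⟩
        | insert a T _ ih =>
          intro h
          obtain ⟨P, hP, hTP⟩ := ih (fun t ht => h t (Finset.mem_insert_of_mem ht))
          have ha := h a (Finset.mem_insert_self _ _)
          rw [mem_sSup_of_directedOn ⟨N₀, hN₀⟩ hch.directedOn] at ha
          obtain ⟨P', hP', haP'⟩ := ha
          obtain ⟨P'', hP'', h1, h2⟩ := hch.directedOn P hP P' hP'
          refine ⟨P'', hP'', ?_⟩
          intro t ht
          rcases Finset.mem_insert.1 ht with rfl | ht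
          · exact h2 haP'
          · exact h1 (hTP t ht)
      obtain ⟨P, hP, hTP⟩ := hfin T (fun t ht => hH (by rw [← hT]; exact subset_closure ht))
      have hHP : H ≤ P := by
        rw [← hT, closure_le]
        exact hTP
      exact (hC hP).2 H K hHP ⟨T, hT⟩ hKH) N ⟨hN, hLN⟩
  exact ⟨M, hNM, hM.prop.1, hM.prop.2, fun M' h1 h2 h3 => hM.le_of_ge ⟨h1, h2⟩ h3⟩

/-- The conclusion of the lemma on pairs in the form used below. -/
theorem pair' [DecidableEq G] {S : Finset G} {ρ : ℝ}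
    (hρ : Tendsto (fun n : ℕ => Real.log ((S ^ n).card : ℝ) / n) atTop (𝓝 ρ)) {c : ℕ}
    (hlt : ρ < Real.log 2 / 3 ^ c) {N : Subgroup G} (hN : N.Normal) (hLN : LN N) {l : ℕ}
    (hl : 0 < l) (hlc : 3 * l ≤ 3 ^ c) {a b : G}
    (ha : a ∈ S ^ l) (hb : b ∈ S ^ l) (hn : b * a * b⁻¹ * a⁻¹ ∈ N) :
    ∃ L, Inv N a L ∧ Inv N b L ∧ b * a * b⁻¹ * a⁻¹ ∈ L := by
  refine pair hρ hl (hlt.trans_le ?_) hN hLN ha hb hn
  have hlog : 0 < Real.log 2 := Real.log_pos (by norm_num)
  apply div_le_div_of_nonneg_left hlog.le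
  · have : 0 < 3 * l := by omega
    exact_mod_cast this
  · exact_mod_cast hlc

/-- A pair of words of the same length. -/
structure PairK [DecidableEq G] (S : Finset G) (M : Subgroup G) (k : ℕ) (l : ℕ) (p q : G) :
    Prop where
  pos : 0 < l
  len : l + 1 ≤ 3 ^ k
  memp : p ∈ S ^ l
  memq : q ∈ S ^ l
  nmem : p⁻¹ * q ∉ M
  lcs : p⁻¹ * q ∈ (⊤ : Subgroup G).lowerCentralSeries k

theorem mem_of_mul_comm {M : Subgroup G} (hM : M.Normal) {u v : G}
    (h : u⁻¹ * v⁻¹ * u * v ∈ M) : (QuotientGroup.mk' M v) * (QuotientGroup.mk' M u) =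
      (QuotientGroup.mk' M u) * (QuotientGroup.mk' M v) := by
  have h1 : QuotientGroup.mk' M (u⁻¹ * v⁻¹ * u * v) = 1 := by
    rw [← MonoidHom.mem_ker, QuotientGroup.ker_mk']
    exact h
  simp only [map_mul, map_inv] at h1
  rw [mul_assoc, ← mul_inv_rev] at h1
  exact (inv_mul_eq_one.1 h1)

theorem not_mem_iff {M : Subgroup G} (hM : M.Normal) (u v : G) :
    u⁻¹ * v⁻¹ * u * v ∈ M ↔ Commute (QuotientGroup.mk' M u) (QuotientGroup.mk' M v) := by
  constructor
  · intro h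
    exact (mem_of_mul_comm hM h).symm
  · intro h
    rw [← QuotientGroup.ker_mk' M, MonoidHom.mem_ker]
    simp only [map_mul, map_inv]
    rw [mul_assoc, ← mul_inv_rev, inv_mul_eq_one]
    exact h.eq.symm

theorem pair_succ [DecidableEq G] {S : Finset G} {M : Subgroup G} (hM : M.Normal) {k l : ℕ}
    {p q : G} (h : PairK S M k l p q) {u : G} (hu : u ∈ S)
    (hc : ¬ Commute (QuotientGroup.mk' M (p⁻¹ * q)) (QuotientGroup.mk' M u)) :
    ∃ l' p' q', PairK S M (k + 1) l' p' q' := by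
  have hlen : l + 1 ≤ 3 ^ k := h.len
  have h3 : (3 : ℕ) ^ (k + 1) = 3 * 3 ^ k := by rw [pow_succ']
  have hlcs : ∀ v : G, (p⁻¹ * q)⁻¹ * v⁻¹ * (p⁻¹ * q) * v ∈
      (⊤ : Subgroup G).lowerCentralSeries (k + 1) := by
    intro v
    have h1 := commutator_mem_commutator (H₁ := (⊤ : Subgroup G).lowerCentralSeries k)
      (H₂ := (⊤ : Subgroup G)) (Subgroup.inv_mem _ h.lcs) (mem_top v⁻¹)
    rw [commutatorElement_def, inv_inv, inv_inv] at h1
    exact h1
  by_cases hp : Commute (QuotientGroup.mk' M (p⁻¹ * q)) (QuotientGroup.mk' M p)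
  · refine ⟨2 * l + 1, p * u * q, q * u * p, ?_⟩
    have e : (p * u * q)⁻¹ * (q * u * p) =
        (p⁻¹ * q)⁻¹ * (u * p)⁻¹ * (p⁻¹ * q) * (u * p) := by group
    refine ⟨by omega, by omega, ?_, ?_, ?_, ?_⟩
    · have : 2 * l + 1 = l + 1 + l := by ring
      rw [this, pow_add, pow_succ]
      exact Finset.mul_mem_mul (Finset.mul_mem_mul h.memp hu) h.memq
    · have : 2 * l + 1 = l + 1 + l := by ring
      rw [this, pow_add, pow_succ]
      exact Finset.mul_mem_mul (Finset.mul_mem_mul h.memq hu) h.memp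
    · rw [e, not_mem_iff hM, map_mul (QuotientGroup.mk' M) u p]
      intro h5
      apply hc
      have := h5.mul_right hp.inv_right
      rwa [mul_inv_cancel_right] at this
    · rw [e]
      exact hlcs _
  · refine ⟨2 * l, p * q, q * p, ?_⟩
    have e : (p * q)⁻¹ * (q * p) = (p⁻¹ * q)⁻¹ * p⁻¹ * (p⁻¹ * q) * p := by group
    refine ⟨by have := h.pos; omega, by omega, ?_, ?_, ?_, ?_⟩
    · rw [two_mul, pow_add]
      exact Finset.mul_mem_mul h.memp h.memq
    · rw [two_mul, pow_add]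
      exact Finset.mul_mem_mul h.memq h.memp
    · rw [e, not_mem_iff hM]
      exact hp
    · rw [e]
      exact hlcs _

/-- The case of a pair whose quotient is central modulo `M`. -/
theorem central_case [DecidableEq G] {S : Finset G} (hS : closure (S : Set G) = ⊤) {ρ : ℝ}
    (hρ : Tendsto (fun n : ℕ => Real.log ((S ^ n).card : ℝ) / n) atTop (𝓝 ρ)) {c : ℕ}
    (hlt : ρ < Real.log 2 / 3 ^ c) {M : Subgroup G} (hM : M.Normal) (hLN : LN M)
    (hmax : ∀ M' : Subgroup G, M'.Normal → LN M' → M ≤ M' → M' ≤ M) {k l : ℕ} (hk : k + 1 ≤ c)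
    {p q : G} (h : PairK S M k l p q)
    (hc : ∀ u ∈ S, Commute (QuotientGroup.mk' M (p⁻¹ * q)) (QuotientGroup.mk' M u)) : False := by
  set z := p⁻¹ * q with hz
  have hlen : l + 1 ≤ 3 ^ k := h.len
  have h3 : 3 * (l + 1) ≤ 3 ^ c :=
    calc 3 * (l + 1) ≤ 3 * 3 ^ k := Nat.mul_le_mul_left _ hlen
      _ = 3 ^ (k + 1) := by rw [pow_succ']
      _ ≤ 3 ^ c := Nat.pow_le_pow_right (by norm_num) hk
  have hcG : ∀ g : G, Commute (QuotientGroup.mk' M z) (QuotientGroup.mk' M g) := by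
    have hle : (⊤ : Subgroup G) ≤ (centralizer {QuotientGroup.mk' M z}).comap
        (QuotientGroup.mk' M) := by
      rw [← hS, closure_le]
      intro u hu
      rw [SetLike.mem_coe, Subgroup.mem_comap, mem_centralizer_iff]
      intro y hy
      rw [Set.mem_singleton_iff] at hy
      rw [hy]
      exact hc u hu
    intro g
    have := hle (mem_top g)
    rw [Subgroup.mem_comap, mem_centralizer_iff] at this
    exact this _ rfl
  have key : ∀ {a b : G} {l' : ℕ}, 0 < l' → 3 * l' ≤ 3 ^ c → a ∈ S ^ l' → b ∈ S ^ l' →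
      b = a * z → a ∈ normalizer (NN M z : Set G) ∧ a * z * a⁻¹ * z⁻¹ ∈ NN M z := by
    intro a b l' hl' hl'c ha hb hbz
    have hn : b * a * b⁻¹ * a⁻¹ ∈ M := by
      have e : b * a * b⁻¹ * a⁻¹ = a * (z * a * z⁻¹ * a⁻¹) * a⁻¹ := by rw [hbz]; group
      rw [e]
      apply hM.conj_mem
      rw [← QuotientGroup.ker_mk' M, MonoidHom.mem_ker]
      simp only [map_mul, map_inv]
      rw [(hcG a).eq, mul_inv_cancel_right, mul_inv_cancel]
    obtain ⟨L, hLa, hLb, hnL⟩ := pair' hρ hlt hM hLN hl' hl'c ha hb hn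
    have hLz : Inv M z L := by
      refine ⟨hLa.fg, hLa.le, ?_⟩
      have := Subgroup.mul_mem _ (Subgroup.inv_mem _ hLa.nrm) hLb.nrm
      rwa [hbz, inv_mul_cancel_left] at this
    have h1 : a * z * a⁻¹ * z⁻¹ ∈ L := by
      have h2 := Subgroup.inv_mem _ (nrm_conj' hLa.nrm hnL)
      have e : (a⁻¹ * (b * a * b⁻¹ * a⁻¹) * a)⁻¹ = a * z * a⁻¹ * z⁻¹ := by rw [hbz]; group
      rwa [e] at h2
    have h2 : a * z * a⁻¹ * z⁻¹ ∈ NN M z := hLz.le_NN h1
    exact ⟨nrm_of_mem hM h2 (by group), h2⟩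
  have hp := key (a := p) (b := q) h.pos (by omega) h.memp h.memq (by rw [hz]; group)
  refine final hS hM hLN hmax h.nmem ?_
  intro w hw
  have hwp := key (a := w * p) (b := w * q) (l' := l + 1) (by omega) h3
    (by rw [pow_succ']; exact Finset.mul_mem_mul hw h.memp)
    (by rw [pow_succ']; exact Finset.mul_mem_mul hw h.memq) (by rw [hz]; group)
  have hwn : w ∈ normalizer (NN M z : Set G) := by
    have := Subgroup.mul_mem _ hwp.1 (Subgroup.inv_mem _ hp.1)
    rwa [mul_inv_cancel_right] at this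
  refine ⟨hwn, ?_⟩
  have h1 := Subgroup.mul_mem _ (Subgroup.inv_mem _ (nrm_conj hwn hp.2)) hwp.2
  have e : (w * (p * z * p⁻¹ * z⁻¹) * w⁻¹)⁻¹ * (w * p * z * (w * p)⁻¹ * z⁻¹) =
      w * z * w⁻¹ * z⁻¹ := by group
  rwa [e] at h1

theorem main_top [DecidableEq G] {S : Finset G} (hS : closure (S : Set G) = ⊤) {ρ : ℝ}
    (hρ : Tendsto (fun n : ℕ => Real.log ((S ^ n).card : ℝ) / n) atTop (𝓝 ρ)) {c : ℕ}
    (hlt : ρ < Real.log 2 / 3 ^ c) {N : Subgroup G} (hN : N.Normal) (hLN : LN N)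
    (hc : (⊤ : Subgroup G).lowerCentralSeries c ≤ N) : N.FG := by
  obtain ⟨M, hNM, hM, hLM, hmax⟩ := exists_max hN hLN
  by_cases htop : M = ⊤
  · have hfg : (⊤ : Subgroup G).FG := ⟨S, hS⟩
    rw [htop] at hLM
    exact hLM ⊤ N le_top hfg le_top
  exfalso
  have hcM : (⊤ : Subgroup G).lowerCentralSeries c ≤ M := hc.trans hNM
  have hc1 : 1 ≤ c := by
    by_contra h0
    have : c = 0 := by omega
    rw [this, Subgroup.lowerCentralSeries_zero] at hcM
    exact htop (top_le_iff.1 hcM)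
  by_cases hA : ∀ s ∈ S, ∀ t ∈ S, t * s * t⁻¹ * s⁻¹ ∈ M
  · -- Case A
    obtain ⟨s, hs, hsM⟩ : ∃ s ∈ S, s ∉ M := by
      by_contra hcon
      push Not at hcon
      apply htop
      rw [← top_le_iff, ← hS, closure_le]
      exact hcon
    refine final hS hM hLM hmax hsM ?_
    intro t ht
    obtain ⟨L, hLs, _, hnL⟩ := pair' hρ hlt hM hLM (l := 1) one_pos (by
      calc 3 * 1 = 3 ^ 1 := by norm_num
        _ ≤ 3 ^ c := Nat.pow_le_pow_right (by norm_num) hc1)
      (a := s) (b := t) (by rwa [pow_one]) (by rwa [pow_one]) (hA s hs t ht)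
    have h1 : t * s * t⁻¹ * s⁻¹ ∈ NN M s := hLs.le_NN hnL
    exact ⟨nrm_of_mem hM h1 (by group), h1⟩
  · -- Case B
    push Not at hA
    obtain ⟨s, hs, t, ht, hst⟩ := hA
    have h1 : ∃ l p q, PairK S M 1 l p q := by
      refine ⟨2, s * t, t * s, ⟨by norm_num, by norm_num, ?_, ?_, ?_, ?_⟩⟩
      · rw [pow_two]; exact Finset.mul_mem_mul hs ht
      · rw [pow_two]; exact Finset.mul_mem_mul ht hs
      · intro h
        apply hst
        have e : t * s * t⁻¹ * s⁻¹ = (t * s) * ((s * t)⁻¹ * (t * s)) * (t * s)⁻¹ := by group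
        rw [e]
        exact hM.conj_mem _ h _
      · have h1 := commutator_mem_commutator (H₁ := (⊤ : Subgroup G).lowerCentralSeries 0)
          (H₂ := (⊤ : Subgroup G)) (mem_top t⁻¹) (mem_top s⁻¹)
        rw [commutatorElement_def] at h1
        have e : (s * t)⁻¹ * (t * s) = t⁻¹ * s⁻¹ * t⁻¹⁻¹ * s⁻¹⁻¹ := by group
        rw [e]
        exact h1
    have hall : ∀ k, 1 ≤ k → k ≤ c → ∃ l p q, PairK S M k l p q := by
      intro k hk1
      induction k, hk1 using Nat.le_induction with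
      | base => exact fun _ => h1
      | succ k hk1 ih =>
        intro hkc
        obtain ⟨l, p, q, h⟩ := ih (by omega)
        by_cases hcen : ∀ u ∈ S, Commute (QuotientGroup.mk' M (p⁻¹ * q)) (QuotientGroup.mk' M u)
        · exact (central_case hS hρ hlt hM hLM hmax hkc h hcen).elim
        · push Not at hcen
          obtain ⟨u, hu, hcu⟩ := hcen
          exact pair_succ hM h hu hcu
    obtain ⟨l, p, q, h⟩ := hall c hc1 le_rfl
    exact h.nmem (hcM h.lcs)

end Pool.Agent.Helper50.Gap
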