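import Pool.Agent.Helper50.Gap.Inv

/-!
# Pairs of words of the same length
-/

namespace Pool.Agent.Helper50.Gap

open Subgroup Pool.Agent.Helper2.Gap Pointwise Filter Topology

variable {G : Type*} [Group G]

theorem cj_all {x a : G} {n : ℕ} (hn : cj x a n ∈ FF x a n) (i : ℕ) : cj x a i ∈ FF x a n := by
  have hcj : ∀ i, x * cj x a i * x⁻¹ = cj x a (i + 1) := by
    intro i
    simp only [cj, pow_succ']
    group
  have hconj : ∀ g ∈ FF x a n, x * g * x⁻¹ ∈ FF x a n := by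
    intro g hg
    have hle : FF x a n ≤ (FF x a n).comap (MulAut.conj x).toMonoidHom := by
      apply (Subgroup.closure_le _).2
      rintro _ ⟨i, hi, rfl⟩
      rw [SetLike.mem_coe, Subgroup.mem_comap]
      change x * cj x a i * x⁻¹ ∈ _
      rw [hcj]
      have hi' : i < n := hi
      rcases Nat.lt_or_ge (i + 1) n with h | h
      · exact cj_mem_FF x a h
      · have : i + 1 = n := by omega
        rw [this]
        exact hn
    exact hle hg
  induction i with
  | zero =>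
    rcases Nat.eq_zero_or_pos n with h | h
    · rw [h] at hn ⊢
      exact hn
    · exact cj_mem_FF x a h
  | succ i ih =>
    rw [← hcj]
    exact hconj _ ih

theorem FF_fg (x a : G) (n : ℕ) : (FF x a n).FG := by
  classical
  refine ⟨(Finset.range n).image (cj x a), ?_⟩
  rw [FF, Finset.coe_image]
  congr 2
  ext i
  simp

theorem FF_le {N : Subgroup G} (hN : N.Normal) {x a : G} (ha : a ∈ N) (n : ℕ) : FF x a n ≤ N := by
  apply (closure_le _).2
  rintro _ ⟨i, _, rfl⟩
  exact hN.conj_mem a ha (x ^ i)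

/-- If all the conjugates `x^k a x^{-k}` lie in a finitely generated subgroup of `N`, then `a` lies
in `NN N x`. -/
theorem mem_NN_of_forall {N : Subgroup G} (hLN : LN N) {x a : G} {F : Subgroup G} (hF : F.FG)
    (hFN : F ≤ N) (h : ∀ k : ℤ, x ^ k * a * (x ^ k)⁻¹ ∈ F) : a ∈ NN N x := by
  set H : Subgroup G := closure (Set.range fun k : ℤ => x ^ k * a * (x ^ k)⁻¹) with hH
  have hHF : H ≤ F := by
    apply (closure_le _).2
    rintro _ ⟨k, rfl⟩
    exact h k
  have hmem : ∀ k : ℤ, x ^ k * a * (x ^ k)⁻¹ ∈ H := fun k => subset_closure ⟨k, rfl⟩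
  have hind : ∀ u : G, (∀ k : ℤ, u * (x ^ k * a * (x ^ k)⁻¹) * u⁻¹ ∈ H) →
      ∀ g ∈ H, u * g * u⁻¹ ∈ H := by
    intro u hu
    have hle : H ≤ H.comap (MulAut.conj u).toMonoidHom := by
      apply (closure_le _).2
      rintro _ ⟨k, rfl⟩
      exact hu k
    exact fun g hg => hle hg
  refine ⟨H, ⟨hLN F H hFN hF hHF, hHF.trans hFN, ?_⟩, ?_⟩
  · apply nrm_of_le
    · apply hind
      intro k
      have := hmem (k + 1)
      have e : x * (x ^ k * a * (x ^ k)⁻¹) * x⁻¹ = x ^ (k + 1) * a * (x ^ (k + 1))⁻¹ := by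
        have : x ^ (k + 1) = x * x ^ k := by rw [add_comm, zpow_add, zpow_one]
        rw [this]; group
      rw [e]; exact this
    · intro g hg
      have h2 := hind x⁻¹ (fun k => by
        have := hmem (k - 1)
        have e : x⁻¹ * (x ^ k * a * (x ^ k)⁻¹) * x⁻¹⁻¹ = x ^ (k - 1) * a * (x ^ (k - 1))⁻¹ := by
          have : x ^ (k - 1) = x⁻¹ * x ^ k := by rw [sub_eq_neg_add, zpow_add, zpow_neg_one]
          rw [this]; group
        rw [e]; exact this) g hg
      rwa [inv_inv] at h2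
  · have := hmem 0
    simpa using this

theorem grow [DecidableEq G] {S : Finset G} {ρ : ℝ}
    (hρ : Tendsto (fun n : ℕ => Real.log ((S ^ n).card : ℝ) / n) atTop (𝓝 ρ)) {l : ℕ} (hl : 0 < l)
    (hlt : ρ < Real.log 2 / l) {N : Subgroup G} (hN : N.Normal) (hLN : LN N) {x a : G}
    (hx : x ∈ S ^ l) (hax : a * x ∈ S ^ l) (ha : a ∈ N) : a ∈ NN N x := by
  have h0 : ¬ ∀ n : ℕ, 2 ^ n ≤ ((S ^ l) ^ n).card := fun h =>
    absurd (rate_ge S ρ hρ l hl h) (not_le.2 hlt)
  have h1 : ∃ n, cj x a n ∈ FF x a n := by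
    by_contra hcon
    push Not at hcon
    exact h0 (two_pow_le_card x a (S ^ l) hx hax hcon)
  have h2 : ∃ m, cj x⁻¹ (x⁻¹ * a⁻¹ * x) m ∈ FF x⁻¹ (x⁻¹ * a⁻¹ * x) m := by
    by_contra hcon
    push Not at hcon
    apply h0
    intro n
    have h3 := two_pow_le_card x⁻¹ (x⁻¹ * a⁻¹ * x) (S ^ l)⁻¹ (Finset.inv_mem_inv hx) (by
      have e : x⁻¹ * a⁻¹ * x * x⁻¹ = (a * x)⁻¹ := by group
      rw [e]
      exact Finset.inv_mem_inv hax) hcon n
    rwa [inv_pow, Finset.card_inv] at h3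
  obtain ⟨n, hn⟩ := h1
  obtain ⟨m, hm⟩ := h2
  have ha' : x⁻¹ * a⁻¹ * x ∈ N := by
    have := hN.conj_mem _ (N.inv_mem ha) x⁻¹
    rwa [inv_inv] at this
  refine mem_NN_of_forall hLN (F := FF x a n ⊔ FF x⁻¹ (x⁻¹ * a⁻¹ * x) m)
    ((FF_fg _ _ _).sup (FF_fg _ _ _)) (sup_le (FF_le hN ha n) (FF_le hN ha' m)) ?_
  intro k
  rcases k with k | k
  · have := cj_all hn k
    apply le_sup_left (a := FF x a n)
    simpa [cj] using this
  · have := Subgroup.inv_mem _ (cj_all hm k)
    apply le_sup_right (b := FF x⁻¹ (x⁻¹ * a⁻¹ * x) m)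
    have e : (cj x⁻¹ (x⁻¹ * a⁻¹ * x) k)⁻¹ = x ^ Int.negSucc k * a * (x ^ Int.negSucc k)⁻¹ := by
      rw [cj, zpow_negSucc, pow_succ']
      group
    rwa [e] at this

/-- The main lemma on pairs. -/
theorem pair [DecidableEq G] {S : Finset G} {ρ : ℝ}
    (hρ : Tendsto (fun n : ℕ => Real.log ((S ^ n).card : ℝ) / n) atTop (𝓝 ρ)) {l : ℕ} (hl : 0 < l)
    (hlt : ρ < Real.log 2 / (3 * l : ℕ)) {N : Subgroup G} (hN : N.Normal) (hLN : LN N) {a b : G}
    (ha : a ∈ S ^ l) (hb : b ∈ S ^ l) (hn : b * a * b⁻¹ * a⁻¹ ∈ N) :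
    ∃ L, Inv N a L ∧ Inv N b L ∧ b * a * b⁻¹ * a⁻¹ ∈ L := by
  set n := b * a * b⁻¹ * a⁻¹ with hndef
  have hlog : 0 < Real.log 2 := Real.log_pos (by norm_num)
  have hl2 : ρ < Real.log 2 / (2 * l : ℕ) := by
    refine hlt.trans_le ?_
    apply div_le_div_of_nonneg_left hlog.le
    · have : 0 < 2 * l := by omega
      exact_mod_cast this
    · have : 2 * l ≤ 3 * l := by omega
      exact_mod_cast this
  have hpow2 : ∀ {u v : G}, u ∈ S ^ l → v ∈ S ^ l → u * v ∈ S ^ (2 * l) := by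
    intro u v hu hv
    rw [two_mul, pow_add]
    exact Finset.mul_mem_mul hu hv
  have hpow3 : ∀ {u v w : G}, u ∈ S ^ l → v ∈ S ^ l → w ∈ S ^ l → u * v * w ∈ S ^ (3 * l) := by
    intro u v w hu hv hw
    have : 3 * l = 2 * l + l := by ring
    rw [this, pow_add]
    exact Finset.mul_mem_mul (hpow2 hu hv) hw
  -- the pair `ab`, `ba`
  have hba : n * (a * b) = b * a := by rw [hndef]; group
  have hnx : n ∈ NN N (a * b) := by
    apply grow hρ (by omega) hl2 hN hLN (hpow2 ha hb) _ hn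
    rw [hba]; exact hpow2 hb ha
  -- the pair `aab`, `aba`
  have haba : (a * n * a⁻¹) * (a * a * b) = a * b * a := by rw [hndef]; group
  have hny : a * n * a⁻¹ ∈ NN N (a * a * b) := by
    apply grow hρ (by omega) hlt hN hLN (hpow3 ha ha hb) _ (hN.conj_mem _ hn a)
    rw [haba]; exact hpow3 ha hb ha
  -- normalisers
  have hbx : b ∈ normalizer (NN N (a * b) : Set G) := by
    apply nrm_of_mem hN hnx
    rw [hba]; group
  have hxx : a * b ∈ normalizer (NN N (a * b) : Set G) := self_nrm hN _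
  have hax : a ∈ normalizer (NN N (a * b) : Set G) := by
    have := Subgroup.mul_mem _ hxx (Subgroup.inv_mem _ hbx)
    rwa [mul_inv_cancel_right] at this
  have hay : a⁻¹ ∈ normalizer (NN N (a * a * b) : Set G) := by
    apply nrm_of_mem hN hny
    rw [haba]; group
  have hay' : a ∈ normalizer (NN N (a * a * b) : Set G) := by
    have := Subgroup.inv_mem _ hay
    rwa [inv_inv] at this
  have hby : b ∈ normalizer (NN N (a * a * b) : Set G) := by
    have h1 := Subgroup.mul_mem _ (Subgroup.inv_mem _ (Subgroup.mul_mem _ hay' hay'))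
      (self_nrm hN (a * a * b))
    have e : (a * a)⁻¹ * (a * a * b) = b := by group
    rwa [e] at h1
  have hny2 : n ∈ NN N (a * a * b) := by
    have := nrm_conj' hay' hny
    have e : a⁻¹ * (a * n * a⁻¹) * a = n := by group
    rwa [e] at this
  -- the commutator of `x = ab` and `y = aab`
  set d := (a * b) * (a * a * b) * (a * b)⁻¹ * (a * a * b)⁻¹ with hd
  have hd' : d = a * n * a⁻¹ := by rw [hd, hndef]; group
  have hdx : d ∈ NN N (a * b) := by
    rw [hd']
    exact nrm_conj hax hnx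
  have hdy : d ∈ NN N (a * a * b) := by
    rw [hd']
    exact hny
  -- a finitely generated subgroup invariant under `x` containing `n` and `d`, inside `NN y`
  obtain ⟨K, hK, hKy, hnK, hdK⟩ : ∃ K, Inv N (a * b) K ∧ K ≤ NN N (a * a * b) ∧ n ∈ K ∧ d ∈ K := by
    obtain ⟨M, hM, hTM⟩ := exists_inv_of_fg (K := closure {n, d}) (N := N) (x := a * b)
      (by classical exact ⟨{n, d}, by simp⟩) (by
        rw [closure_le]
        rintro _ (rfl | rfl)
        · exact hnx
        · exact hdx)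
    have hxy : a * b ∈ normalizer (NN N (a * a * b) : Set G) := Subgroup.mul_mem _ hay' hby
    have hMI : Inv N (a * b) (M ⊓ NN N (a * a * b)) := by
      refine ⟨hLN M _ hM.le hM.fg inf_le_left, inf_le_left.trans hM.le, ?_⟩
      apply nrm_of_le
      · rintro h ⟨h1, h2⟩
        exact ⟨nrm_conj hM.nrm h1, nrm_conj hxy h2⟩
      · rintro h ⟨h1, h2⟩
        exact ⟨nrm_conj' hM.nrm h1, nrm_conj' hxy h2⟩
    refine ⟨_, hMI, inf_le_right, ⟨hTM (subset_closure (by simp)), hny2⟩,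
      ⟨hTM (subset_closure (by simp)), hdy⟩⟩
  obtain ⟨L, hLx, hLy, hKL⟩ := exists_inv_both hLN hK hKy hdK
  have haL : a ∈ normalizer (L : Set G) := by
    have h1 := Subgroup.mul_mem _ hLy.nrm (Subgroup.inv_mem _ hLx.nrm)
    have e : a * a * b * (a * b)⁻¹ = a := by group
    rwa [e] at h1
  have hbL : b ∈ normalizer (L : Set G) := by
    have h1 := Subgroup.mul_mem _ (Subgroup.inv_mem _ haL) hLx.nrm
    rwa [inv_mul_cancel_left] at h1
  exact ⟨L, ⟨hLx.fg, hLx.le, haL⟩, ⟨hLx.fg, hLx.le, hbL⟩, hKL hnK⟩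

end Pool.Agent.Helper50.Gap
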