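import Pool.Agent.Helper50.Gap.Pairs

/-!
# Enlarging a locally Noetherian normal subgroup
-/

namespace Pool.Agent.Helper50.Gap

open Subgroup Pool.Agent.Helper2.Gap

variable {G : Type*} [Group G]

theorem NN_eq {M : Subgroup G} {z : G} (h : ∀ x ∈ M, x * z * x⁻¹ * z⁻¹ ∈ NN M z) :
    NN M z = M := by
  apply le_antisymm (NN_le M z)
  intro x hx
  obtain ⟨H, hH, hd⟩ := h x hx
  have hxK : x ∈ H ⊔ zpowers x := le_sup_right (a := H) (mem_zpowers x)
  have hHK : ∀ g ∈ H, g ∈ H ⊔ zpowers x := fun g hg => le_sup_left (a := H) hg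
  refine ⟨H ⊔ zpowers x, ⟨?_, ?_, ?_⟩, hxK⟩
  · exact hH.fg.sup (by
      classical
      exact ⟨{x}, by rw [Finset.coe_singleton, zpowers_eq_closure]⟩)
  · exact sup_le hH.le (by rwa [zpowers_le])
  · have e1 : z * x * z⁻¹ = (x * z * x⁻¹ * z⁻¹)⁻¹ * x := by group
    have h1 : z * x * z⁻¹ ∈ H ⊔ zpowers x := by
      rw [e1]
      exact Subgroup.mul_mem _ (Subgroup.inv_mem _ (hHK _ hd)) hxK
    have e2 : z⁻¹ * x * z = (z⁻¹ * (x * z * x⁻¹ * z⁻¹) * z) * x := by group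
    have h2 : z⁻¹ * x * z ∈ H ⊔ zpowers x := by
      rw [e2]
      exact Subgroup.mul_mem _ (hHK _ (nrm_conj' hH.nrm hd)) hxK
    apply nrm_of_le
    · have hle : H ⊔ zpowers x ≤ (H ⊔ zpowers x).comap (MulAut.conj z).toMonoidHom := by
        apply sup_le
        · intro g hg
          exact hHK _ (nrm_conj hH.nrm hg)
        · rw [zpowers_le]
          exact h1
      exact fun g hg => hle hg
    · have hle : H ⊔ zpowers x ≤ (H ⊔ zpowers x).comap (MulAut.conj z⁻¹).toMonoidHom := by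
        apply sup_le
        · intro g hg
          have := nrm_conj' hH.nrm hg
          rw [mem_comap]
          change z⁻¹ * g * z⁻¹⁻¹ ∈ _
          rw [inv_inv]
          exact hHK _ this
        · rw [zpowers_le, mem_comap]
          change z⁻¹ * x * z⁻¹⁻¹ ∈ _
          rw [inv_inv]
          exact h2
      intro g hg
      have := hle hg
      rw [mem_comap] at this
      change z⁻¹ * g * z⁻¹⁻¹ ∈ _ at this
      rwa [inv_inv] at this

/-- `l₀ z^d` to the power `n` is `z^{dn}` modulo `L`. -/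
theorem zpow_mod {L : Subgroup G} {z l₀ : G} (hz : z ∈ normalizer (L : Set G)) (hl : l₀ ∈ L)
    (d n : ℤ) : (l₀ * z ^ d) ^ n * (z ^ (d * n))⁻¹ ∈ L := by
  have hzi : ∀ i : ℤ, ∀ l ∈ L, z ^ i * l * (z ^ i)⁻¹ ∈ L := fun i l hl =>
    nrm_conj (Subgroup.zpow_mem _ hz i) hl
  induction n using Int.induction_on with
  | zero => simp
  | succ n ih =>
    have e : (l₀ * z ^ d) ^ ((n : ℤ) + 1) * (z ^ (d * ((n : ℤ) + 1)))⁻¹ =
        ((l₀ * z ^ d) ^ (n : ℤ) * (z ^ (d * (n : ℤ)))⁻¹) *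
          (z ^ (d * (n : ℤ)) * l₀ * (z ^ (d * (n : ℤ)))⁻¹) := by
      rw [zpow_add_one, mul_add, mul_one, zpow_add]; group
    rw [e]
    exact Subgroup.mul_mem _ ih (hzi _ _ hl)
  | pred n ih =>
    have e : (l₀ * z ^ d) ^ (-(n : ℤ) - 1) * (z ^ (d * (-(n : ℤ) - 1)))⁻¹ =
        ((l₀ * z ^ d) ^ (-(n : ℤ)) * (z ^ (d * (-(n : ℤ))))⁻¹) *
          (z ^ (d * (-(n : ℤ) - 1)) * l₀ * (z ^ (d * (-(n : ℤ) - 1)))⁻¹)⁻¹ := by
      have h1 : z ^ (d * (-(n : ℤ))) = z ^ (d * (-(n : ℤ) - 1)) * z ^ d := by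
        rw [← zpow_add]; congr 1; ring
      have h2 : (l₀ * z ^ d) ^ (-(n : ℤ)) = (l₀ * z ^ d) ^ (-(n : ℤ) - 1) * (l₀ * z ^ d) := by
        rw [← zpow_add_one, sub_add_cancel]
      rw [h1, h2]; group
    rw [e]
    exact Subgroup.mul_mem _ ih (Subgroup.inv_mem _ (hzi _ _ hl))

/-- Subgroups of a cyclic extension of a finitely generated Noetherian group are finitely
generated. -/
theorem fg_of_cyclic {L : Subgroup G} {z : G} (hz : z ∈ normalizer (L : Set G))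
    (hL : ∀ K ≤ L, K.FG) {K : Subgroup G} (hK : ∀ g ∈ K, ∃ i : ℤ, g * (z ^ i)⁻¹ ∈ L) : K.FG := by
  have hzi : ∀ i : ℤ, ∀ l ∈ L, z ^ i * l * (z ^ i)⁻¹ ∈ L := fun i l hl =>
    nrm_conj (Subgroup.zpow_mem _ hz i) hl
  let I : AddSubgroup ℤ :=
    { carrier := {i | ∃ l ∈ L, l * z ^ i ∈ K}
      zero_mem' := ⟨1, L.one_mem, by simp⟩
      add_mem' := by
        rintro i j ⟨l, hl, h1⟩ ⟨m, hm, h2⟩
        refine ⟨l * (z ^ i * m * (z ^ i)⁻¹), L.mul_mem hl (hzi i m hm), ?_⟩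
        have e : l * (z ^ i * m * (z ^ i)⁻¹) * z ^ (i + j) = (l * z ^ i) * (m * z ^ j) := by
          rw [zpow_add]; group
        rw [e]
        exact K.mul_mem h1 h2
      neg_mem' := by
        rintro i ⟨l, hl, h1⟩
        refine ⟨z ^ (-i) * l⁻¹ * (z ^ (-i))⁻¹, hzi _ _ (L.inv_mem hl), ?_⟩
        have e : z ^ (-i) * l⁻¹ * (z ^ (-i))⁻¹ * z ^ (-i) = (l * z ^ i)⁻¹ := by
          rw [zpow_neg]; group
        rw [e]
        exact K.inv_mem h1 }
  obtain ⟨d, hd⟩ := Int.subgroup_cyclic I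
  have hdI : d ∈ I := by
    rw [hd]
    exact AddSubgroup.subset_closure rfl
  obtain ⟨l₀, hl₀, hk₀⟩ := hdI
  have hKe : K = (K ⊓ L) ⊔ zpowers (l₀ * z ^ d) := by
    apply le_antisymm
    · intro g hg
      obtain ⟨i, hi⟩ := hK g hg
      have hiI : i ∈ I := ⟨g * (z ^ i)⁻¹, hi, by simpa using hg⟩
      rw [hd, AddSubgroup.mem_closure_singleton] at hiI
      obtain ⟨n, hn⟩ := hiI
      have hn' : i = d * n := by rw [← hn, smul_eq_mul, mul_comm]
      have h1 := zpow_mod hz hl₀ d n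
      rw [← hn'] at h1
      have h2 : g * ((l₀ * z ^ d) ^ n)⁻¹ ∈ K ⊓ L := by
        refine ⟨K.mul_mem hg (K.inv_mem (K.zpow_mem hk₀ n)), ?_⟩
        have := L.mul_mem hi (L.inv_mem h1)
        have e : g * (z ^ i)⁻¹ * ((l₀ * z ^ d) ^ n * (z ^ i)⁻¹)⁻¹ = g * ((l₀ * z ^ d) ^ n)⁻¹ := by
          group
        rwa [e] at this
      have h3 := Subgroup.mul_mem _ (le_sup_left (a := K ⊓ L) (b := zpowers (l₀ * z ^ d)) h2)
        (le_sup_right (a := K ⊓ L) (b := zpowers (l₀ * z ^ d)) ⟨n, rfl⟩)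
      simpa using h3
    · apply sup_le inf_le_left
      rw [zpowers_le]
      exact hk₀
  rw [hKe]
  exact (hL _ inf_le_right).sup (by
    classical
    exact ⟨{l₀ * z ^ d}, by rw [Finset.coe_singleton, zpowers_eq_closure]⟩)

/-- The extension of `M` by the powers of an element `z` that is central modulo `M`. -/
theorem step {M : Subgroup G} (hM : M.Normal) (hLN : LN M) {z : G} (hNN : NN M z = M)
    (hcen : ∀ g : G, g * z * g⁻¹ * z⁻¹ ∈ M) :
    ∃ M' : Subgroup G, M'.Normal ∧ LN M' ∧ M ≤ M' ∧ z ∈ M' := by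
  -- elements of `M'`
  let M' : Subgroup G :=
    { carrier := {g | ∃ i : ℤ, g * (z ^ i)⁻¹ ∈ M}
      one_mem' := ⟨0, by simp⟩
      mul_mem' := by
        rintro a b ⟨i, hi⟩ ⟨j, hj⟩
        refine ⟨i + j, ?_⟩
        have e : a * b * (z ^ (i + j))⁻¹ = (a * (z ^ i)⁻¹) * (z ^ i * (b * (z ^ j)⁻¹) * (z ^ i)⁻¹) := by
          rw [zpow_add]; group
        rw [e]
        exact M.mul_mem hi (hM.conj_mem _ hj _)
      inv_mem' := by
        rintro a ⟨i, hi⟩
        refine ⟨-i, ?_⟩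
        have e : a⁻¹ * (z ^ (-i))⁻¹ = ((z ^ i)⁻¹ * (a * (z ^ i)⁻¹)⁻¹ * ((z ^ i)⁻¹)⁻¹) := by
          rw [zpow_neg]; group
        rw [e]
        exact hM.conj_mem _ (M.inv_mem hi) _ }
  have hzi : ∀ (g : G) (i : ℤ), g * z ^ i * g⁻¹ * (z ^ i)⁻¹ ∈ M := by
    intro g i
    have hq : (QuotientGroup.mk' M g) * (QuotientGroup.mk' M z) * (QuotientGroup.mk' M g)⁻¹ =
        QuotientGroup.mk' M z := by
      have h1 : QuotientGroup.mk' M (g * z * g⁻¹ * z⁻¹) = 1 := by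
        rw [← MonoidHom.mem_ker, QuotientGroup.ker_mk']
        exact hcen g
      rw [map_mul, map_mul, map_mul, map_inv, map_inv] at h1
      exact mul_inv_eq_one.1 h1
    have h2 : (QuotientGroup.mk' M g) * (QuotientGroup.mk' M z) ^ i * (QuotientGroup.mk' M g)⁻¹ =
        (QuotientGroup.mk' M z) ^ i := by
      rw [← conj_zpow, hq]
    rw [← QuotientGroup.ker_mk' M, MonoidHom.mem_ker, map_mul, map_mul, map_mul, map_inv, map_inv,
      map_zpow, h2, mul_inv_cancel]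
  refine ⟨M', ⟨?_⟩, ?_, ?_, ⟨1, by simp⟩⟩
  · rintro a ⟨i, hi⟩ g
    refine ⟨i, ?_⟩
    have e : g * a * g⁻¹ * (z ^ i)⁻¹ = (g * (a * (z ^ i)⁻¹) * g⁻¹) * (g * z ^ i * g⁻¹ * (z ^ i)⁻¹) := by
      group
    rw [e]
    exact M.mul_mem (hM.conj_mem _ hi g) (hzi g i)
  · intro H K hHM' hH hKH
    obtain ⟨T, hT⟩ := hH
    have hex : ∀ t : G, ∃ i : ℤ, t ∈ T → t * (z ^ i)⁻¹ ∈ M := by
      intro t
      by_cases ht : t ∈ T
      · obtain ⟨i, hi⟩ := hHM' (by rw [← hT]; exact subset_closure ht : t ∈ H)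
        exact ⟨i, fun _ => hi⟩
      · exact ⟨0, fun h => absurd h ht⟩
    choose e he using hex
    classical
    obtain ⟨L, hL, hTL⟩ := exists_inv_of_finset (N := M) (x := z)
      (T.image (fun t => t * (z ^ (e t))⁻¹)) (by
        intro t ht
        obtain ⟨s, hs, rfl⟩ := Finset.mem_image.1 ht
        rw [hNN]
        exact he s hs)
    have hLz : ∀ i : ℤ, z ^ i ∈ normalizer (L : Set G) := fun i => Subgroup.zpow_mem _ hL.nrm i
    -- the subgroup `E = L ⟨z⟩`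
    let E : Subgroup G :=
      { carrier := {g | ∃ i : ℤ, g * (z ^ i)⁻¹ ∈ L}
        one_mem' := ⟨0, by simp⟩
        mul_mem' := by
          rintro a b ⟨i, hi⟩ ⟨j, hj⟩
          refine ⟨i + j, ?_⟩
          have e : a * b * (z ^ (i + j))⁻¹ =
              (a * (z ^ i)⁻¹) * (z ^ i * (b * (z ^ j)⁻¹) * (z ^ i)⁻¹) := by
            rw [zpow_add]; group
          rw [e]
          exact L.mul_mem hi (nrm_conj (hLz i) hj)
        inv_mem' := by
          rintro a ⟨i, hi⟩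
          refine ⟨-i, ?_⟩
          have e : a⁻¹ * (z ^ (-i))⁻¹ = ((z ^ i)⁻¹ * (a * (z ^ i)⁻¹)⁻¹ * z ^ i) := by
            rw [zpow_neg]; group
          rw [e]
          exact nrm_conj' (hLz i) (L.inv_mem hi) }
    have hHE : H ≤ E := by
      rw [← hT, closure_le]
      intro t ht
      exact ⟨e t, hTL _ (Finset.mem_image_of_mem _ ht)⟩
    exact fg_of_cyclic hL.nrm (fun K' hK' => hLN L K' hL.le hL.fg hK')
      (fun g hg => hHE (hKH hg))
  · intro a ha
    exact ⟨0, by simpa using ha⟩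

/-- Consequence for a maximal locally Noetherian normal subgroup. -/
theorem final {S : Set G} (hS : closure S = ⊤) {M : Subgroup G} (hM : M.Normal) (hLN : LN M)
    (hmax : ∀ M' : Subgroup G, M'.Normal → LN M' → M ≤ M' → M' ≤ M) {z : G} (hz : z ∉ M)
    (h : ∀ w ∈ S, w ∈ normalizer (NN M z : Set G) ∧ w * z * w⁻¹ * z⁻¹ ∈ NN M z) : False := by
  have hn : ∀ g : G, g ∈ normalizer (NN M z : Set G) := by
    have hle : (⊤ : Subgroup G) ≤ normalizer (NN M z : Set G) := by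
      rw [← hS, closure_le]
      exact fun w hw => (h w hw).1
    exact fun g => hle (mem_top g)
  have hnor : (NN M z).Normal := ⟨fun a ha g => nrm_conj (hn g) ha⟩
  have hcen : ∀ g : G, g * z * g⁻¹ * z⁻¹ ∈ NN M z := by
    let C : Subgroup G :=
      { carrier := {g | g * z * g⁻¹ * z⁻¹ ∈ NN M z}
        one_mem' := by simp
        mul_mem' := by
          intro a b ha hb
          have e : (a * b) * z * (a * b)⁻¹ * z⁻¹ =
              (a * (b * z * b⁻¹ * z⁻¹) * a⁻¹) * (a * z * a⁻¹ * z⁻¹) := by group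
          change (a * b) * z * (a * b)⁻¹ * z⁻¹ ∈ NN M z
          rw [e]
          exact Subgroup.mul_mem _ (hnor.conj_mem _ hb a) ha
        inv_mem' := by
          intro a ha
          have e : a⁻¹ * z * a⁻¹⁻¹ * z⁻¹ = a⁻¹ * (a * z * a⁻¹ * z⁻¹)⁻¹ * a⁻¹⁻¹ := by group
          change a⁻¹ * z * a⁻¹⁻¹ * z⁻¹ ∈ NN M z
          rw [e]
          exact hnor.conj_mem _ (Subgroup.inv_mem _ ha) a⁻¹ }
    have hle : (⊤ : Subgroup G) ≤ C := by
      rw [← hS, closure_le]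
      exact fun w hw => (h w hw).2
    exact fun g => hle (mem_top g)
  have hNN : NN M z = M := NN_eq (fun x _ => hcen x)
  rw [hNN] at hcen
  obtain ⟨M', h1, h2, h3, h4⟩ := step hM hLN hNN hcen
  exact hz (hmax M' h1 h2 h3 h4)

end Pool.Agent.Helper50.Gap
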